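import Pool.Agent.Y142.ZO.Stm

/-!
A Tate subquotient forces equal discriminants (task BAD of the project Y142-ZO).
-/

set_option autoImplicit false

open Matrix Polynomial

namespace Pool.Agent.Y458.ZO

open Pool.Agent.Y142.ZO

section alg

variable {F : Type} [Field F] {N : ℕ}

theorem bil_add_left (B : Matrix (Fin N) (Fin N) F) (x y z : Fin N → F) :
    bil B (x + y) z = bil B x z + bil B y z := by
  unfold bil
  rw [add_dotProduct]

theorem bil_sub_left (B : Matrix (Fin N) (Fin N) F) (x y z : Fin N → F) :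
    bil B (x - y) z = bil B x z - bil B y z := by
  unfold bil
  rw [sub_dotProduct]

theorem bil_smul_left (B : Matrix (Fin N) (Fin N) F) (a : F) (x z : Fin N → F) :
    bil B (a • x) z = a * bil B x z := by
  unfold bil
  rw [smul_dotProduct, smul_eq_mul]

theorem bil_comm (B : Matrix (Fin N) (Fin N) F) (hB : Bᵀ = B) (x y : Fin N → F) :
    bil B x y = bil B y x := by
  unfold bil
  rw [dotProduct_mulVec, ← mulVec_transpose, hB, dotProduct_comm]

theorem bil_isom (B g : Matrix (Fin N) (Fin N) F) (hg : Isom B g) (x y : Fin N → F) :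
    bil B (g *ᵥ x) (g *ᵥ y) = bil B x y := by
  unfold bil
  have h : gᵀ * B * g = B := hg
  rw [← vecMul_transpose, ← dotProduct_mulVec, mulVec_mulVec, mulVec_mulVec, h]

theorem pow_fix (g : Matrix (Fin N) (Fin N) F) (e : Fin N → F) (h : g *ᵥ e = e) (n : ℕ) :
    (g ^ n) *ᵥ e = e := by
  induction n with
  | zero => rw [pow_zero, one_mulVec]
  | succ n ih => rw [pow_succ, ← mulVec_mulVec, h, ih]

theorem pow_ker (g : Matrix (Fin N) (Fin N) F) (Q : F[X]) (hQ : g.charpoly = (X - 1) * Q) (n : ℕ)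
    (hc : IsCoprime Q (X ^ n - 1)) (x : Fin N → F) (hx : (g ^ n - 1) *ᵥ x = 0) :
    (g - 1) *ᵥ x = 0 := by
  obtain ⟨a, b, hab⟩ := hc
  have h1 : (X - 1 : F[X]) = a * g.charpoly + b * (X - 1) * (X ^ n - 1) := by
    rw [hQ]
    linear_combination -(X - 1 : F[X]) * hab
  have h2 : (g - 1 : Matrix (Fin N) (Fin N) F) =
      aeval g b * (g - 1) * (g ^ n - 1) := by
    have h3 := congrArg (aeval g) h1
    simp only [map_add, map_mul, map_sub, map_one, map_pow, aeval_X, Matrix.aeval_self_charpoly,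
      mul_zero, zero_add] at h3
    exact h3
  rw [h2, ← mulVec_mulVec, hx, mulVec_zero]

/-- the linear algebra of one element -/
theorem one_elt (B h : Matrix (Fin N) (Fin N) F) (hI : Isom B h) (e : Fin N → F)
    (he : h *ᵥ e = e) (hk : ∀ x, (h - 1) *ᵥ x = 0 → ∃ a : F, x = a • e)
    (W' W : Submodule F (Fin N → F)) (hW : W' < W) (hU : ∀ w ∈ W, h *ᵥ w - w ∈ W') :
    e ∈ W ∧ (∀ w ∈ W', bil B w e = 0) ∧
      Module.finrank F W ≤ Module.finrank F W' + 1 := by
  set f : (Fin N → F) →ₗ[F] (Fin N → F) := (h - 1).mulVecLin with hf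
  have hfa : ∀ x, f x = h *ᵥ x - x := by
    intro x
    rw [hf, mulVecLin_apply, sub_mulVec, one_mulVec]
  have hmap : W.map f ≤ W' := by
    rintro _ ⟨w, hw, rfl⟩
    rw [hfa]
    exact hU w hw
  have hlt : Module.finrank F W' < Module.finrank F W := Submodule.finrank_lt_finrank_of_lt hW
  have hrk := LinearMap.finrank_range_add_finrank_ker (f.domRestrict W)
  have hrange : LinearMap.range (f.domRestrict W) = W.map f := by
    rw [LinearMap.range_domRestrict]
  rw [hrange] at hrk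
  have hle : Module.finrank F (W.map f) ≤ Module.finrank F W' := Submodule.finrank_mono hmap
  have hker : ∀ x : W, f.domRestrict W x = 0 → ∃ a : F, (x : Fin N → F) = a • e := by
    intro x hx
    apply hk
    have : f x = 0 := hx
    rw [hf, mulVecLin_apply] at this
    exact this
  have heW : e ∈ W := by
    by_contra hcon
    have hbot : LinearMap.ker (f.domRestrict W) = ⊥ := by
      rw [LinearMap.ker_eq_bot']
      intro x hx
      obtain ⟨a, ha⟩ := hker x hx
      by_cases ha0 : a = 0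
      · apply Subtype.ext
        rw [ha, ha0, zero_smul]
        rfl
      · exfalso
        apply hcon
        have : e = a⁻¹ • (x : Fin N → F) := by
          rw [ha, smul_smul, inv_mul_cancel₀ ha0, one_smul]
        rw [this]
        exact W.smul_mem _ x.2
    rw [hbot, finrank_bot] at hrk
    omega
  have hfe : f.domRestrict W ⟨e, heW⟩ = 0 := by
    have : f e = 0 := by rw [hfa, he, sub_self]
    exact this
  have hk1 : Module.finrank F (LinearMap.ker (f.domRestrict W)) ≤ 1 := by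
    refine finrank_le_one (⟨⟨e, heW⟩, hfe⟩ : LinearMap.ker (f.domRestrict W)) ?_
    intro x
    obtain ⟨a, ha⟩ := hker x.1 x.2
    refine ⟨a, ?_⟩
    apply Subtype.ext
    apply Subtype.ext
    exact ha.symm
  have heq : W.map f = W' := Submodule.eq_of_le_of_finrank_le hmap (by omega)
  refine ⟨heW, ?_, by omega⟩
  intro w hw
  rw [← heq] at hw
  obtain ⟨x, hx, rfl⟩ := hw
  rw [hfa, bil_sub_left]
  have : bil B (h *ᵥ x) e = bil B x e := by
    conv_lhs => rw [← he]
    exact bil_isom B h hI x e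
  rw [this, sub_self]

end alg

theorem bad (h1 : S_ISO) (h2 : S_LINE) : S_BAD := by
  intro ℓ _ N hN G _ _ _ _ ρ B hB hdet hI hT σ₁ σ₂ Q₁ Q₂ hc₁ hc₂ hq₁ hq₂
  obtain ⟨U, W', W, hU, hW, hUW⟩ := hT
  have hfin : U.index ≠ 0 := by
    have : Finite (G ⧸ U) := U.quotient_finite_of_isOpen hU
    exact Subgroup.index_ne_zero_of_finite
  have key : ∀ (σ : G) (Q : ℚ_[ℓ][X]), (ρ σ).charpoly = (X - 1) * Q →
      (∀ n : ℕ, 0 < n → IsCoprime Q (X ^ n - 1)) →
      ∃ e : Fin N → ℚ_[ℓ], bil B e e ≠ 0 ∧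
        IsSquare (Q.eval 1 * Q.eval (-1) * bil B e e * B.det) ∧
        e ∈ W ∧ (∀ w ∈ W', bil B w e = 0) ∧
        Module.finrank ℚ_[ℓ] W ≤ Module.finrank ℚ_[ℓ] W' + 1 := by
    intro σ Q hc hq
    have hQ1 : Q.eval 1 ≠ 0 := by
      obtain ⟨a, b, hab⟩ := hq 1 one_pos
      have h3 := congrArg (Polynomial.eval 1) hab
      simp only [pow_one, eval_add, eval_mul, eval_sub, eval_X, eval_one, sub_self, mul_zero,
        add_zero] at h3
      exact right_ne_zero_of_mul (h3 ▸ one_ne_zero)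
    obtain ⟨e, he, hee⟩ := h2 ℚ_[ℓ] N B (ρ σ) Q hB hdet (hI σ) hc hQ1
    obtain ⟨-, he1, he2⟩ := he
    have hfix : ρ σ *ᵥ e = e := by
      rw [sub_mulVec, one_mulVec] at he1
      exact sub_eq_zero.mp he1
    obtain ⟨n, hn, -, hnU⟩ := Subgroup.exists_pow_mem_of_index_ne_zero hfin σ
    refine ⟨e, hee, h1 ℚ_[ℓ] N hN B (ρ σ) e Q hB hdet (hI σ) hfix hc, ?_⟩
    have hp : ρ (σ ^ n) = ρ σ ^ n := map_pow ρ σ n
    refine one_elt B (ρ (σ ^ n)) (hI _) e ?_ ?_ W' W hW (fun w hw => hUW _ hnU w hw)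
    · rw [hp]
      exact pow_fix _ _ hfix n
    · intro x hx
      rw [hp] at hx
      exact he2 x (pow_ker (ρ σ) Q hc n (hq n hn) x hx)
  obtain ⟨e₁, hn₁, hs₁, hW₁, ho₁, hf₁⟩ := key σ₁ Q₁ hc₁ hq₁
  obtain ⟨e₂, hn₂, hs₂, hW₂, ho₂, -⟩ := key σ₂ Q₂ hc₂ hq₂
  have hnot : e₁ ∉ W' := fun h => hn₁ (ho₁ e₁ h)
  have hsup : W' ⊔ Submodule.span ℚ_[ℓ] {e₁} = W := by
    apply Submodule.eq_of_le_of_finrank_le
    · refine sup_le hW.le ?_
      rw [Submodule.span_singleton_le_iff_mem]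
      exact hW₁
    · have hlt : W' < W' ⊔ Submodule.span ℚ_[ℓ] {e₁} := by
        refine lt_of_le_of_ne le_sup_left fun h => hnot ?_
        rw [h]
        exact Submodule.mem_sup_right (Submodule.mem_span_singleton_self e₁)
      have := Submodule.finrank_lt_finrank_of_lt hlt
      omega
  rw [← hsup] at hW₂
  obtain ⟨u, hu, v, hv, huv⟩ := Submodule.mem_sup.mp hW₂
  obtain ⟨a, rfl⟩ := Submodule.mem_span_singleton.mp hv
  have hd : bil B e₂ e₂ = a ^ 2 * bil B e₁ e₁ := by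
    have h3 : bil B e₂ e₂ = bil B (u + a • e₁) e₂ := by rw [huv]
    have h4 : bil B e₁ e₂ = a * bil B e₁ e₁ := by
      rw [bil_comm B hB, ← huv, bil_add_left, ho₁ u hu, zero_add, bil_smul_left]
    rw [h3, bil_add_left, ho₂ u hu, zero_add, bil_smul_left, h4]
    ring
  have ha : a ≠ 0 := by
    rintro rfl
    apply hn₂
    rw [hd]
    ring
  obtain ⟨s₁, hs₁⟩ := hs₁
  obtain ⟨s₂, hs₂⟩ := hs₂
  rw [hd] at hs₂
  refine ⟨s₁ * s₂ / (a * bil B e₁ e₁ * B.det), ?_⟩
  have hne : a * bil B e₁ e₁ * B.det ≠ 0 := mul_ne_zero (mul_ne_zero ha hn₁) hdet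
  rw [div_mul_div_comm, eq_div_iff (mul_ne_zero hne hne)]
  have e1 : s₁ * s₂ * (s₁ * s₂) = (s₁ * s₁) * (s₂ * s₂) := by ring
  rw [e1, ← hs₁, ← hs₂]
  ring

end Pool.Agent.Y458.ZO
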